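import Pool.Agent.LRG.StmtsH

/-! Squad LRG, row DIR (helper28). -/

set_option autoImplicit false

namespace Pool.Agent.LRG.H28

theorem uncountable_padicInt (p : ℕ) [Fact p.Prime] : ¬ Countable ℤ_[p] := by
  intro h
  have h1 : Countable ℚ_[p] := by
    have hs : Function.Surjective
        (fun z : ℤ_[p] × ↥(nonZeroDivisors ℤ_[p]) => IsLocalization.mk' ℚ_[p] z.1 z.2) := by
      intro x
      obtain ⟨a, b, hab⟩ := IsLocalization.exists_mk'_eq (nonZeroDivisors ℤ_[p]) x
      exact ⟨(a, b), hab⟩
    exact hs.countable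
  have h2 := continuum_le_cardinal_of_nontriviallyNormedField ℚ_[p]
  have h3 : Cardinal.mk ℚ_[p] ≤ Cardinal.aleph0 := Cardinal.mk_le_aleph0
  exact absurd (h2.trans h3) (not_le.2 Cardinal.aleph0_lt_continuum)

theorem dir : H.DirStmt := by
  intro p _ m
  obtain ⟨s, hs⟩ := exists_isTranscendenceBasis ℤ ℤ_[p]
  have hinf : Infinite s := by
    by_contra hfin
    rw [not_infinite_iff_finite] at hfin
    have halg : Algebra.IsAlgebraic
        (Algebra.adjoin ℤ (Set.range ((↑) : s → ℤ_[p]))) ℤ_[p] := hs.isAlgebraic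
    have hc : Countable (Algebra.adjoin ℤ (Set.range ((↑) : s → ℤ_[p]))) := by
      have hcm : Countable (MvPolynomial s ℤ) := by
        rw [← Cardinal.mk_le_aleph0_iff]
        refine MvPolynomial.cardinalMk_le_max.trans ?_
        simp
      rw [Algebra.adjoin_range_eq_range_aeval]
      exact (MvPolynomial.aeval ((↑) : s → ℤ_[p])).rangeRestrict_surjective.countable
    apply uncountable_padicInt p
    rw [← Cardinal.mk_le_aleph0_iff]
    have h4 := Algebra.IsAlgebraic.cardinalMk_le_max
      (Algebra.adjoin ℤ (Set.range ((↑) : s → ℤ_[p]))) ℤ_[p]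
    exact h4.trans (max_le (Cardinal.mk_le_aleph0_iff.2 hc) le_rfl)
  let e : Fin m → s := fun i => Infinite.natEmbedding s i
  have he : Function.Injective e := fun i j hij =>
    Fin.ext ((Infinite.natEmbedding s).injective hij)
  exact ⟨fun i => (e i : ℤ_[p]), hs.1.comp e he⟩

end Pool.Agent.LRG.H28
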